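import Mathlib

/-!
# MP_aa1cdf_co: a perfect cone spanned by `g = 21` independent rank one forms which is not basic

The lattice is `(1/2) {x ∈ ℤ^21 : x mod 2 ∈ C}`, where `C` is the cyclic `[21, 12, 5]` code with
zeros `α, α³` (and conjugates); it contains its dual.
-/

set_option autoImplicit false

open Finset

namespace Pool.Agent.Results.MP_aa1cdf_co.NotBasic

/-! ### Definitions -/

/-- The rank one form `p(v) = v vᵀ`. -/
def p {g : ℕ} (v : Fin g → ℤ) : Matrix (Fin g) (Fin g) ℤ := Matrix.vecMulVec v v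

/-- The lattice of integral symmetric `g × g` matrices. -/
def SymMat (g : ℕ) : Submodule ℤ (Matrix (Fin g) (Fin g) ℤ) where
  carrier := {A | A.transpose = A}
  add_mem' := by
    intro A B hA hB
    simp only [Set.mem_ofPred_eq, Matrix.transpose_add] at *
    rw [hA, hB]
  zero_mem' := by simp
  smul_mem' := by
    intro c A hA
    simp only [Set.mem_ofPred_eq, Matrix.transpose_smul] at *
    rw [hA]

/-- The value at `x ∈ ℤ^g` of the quadratic form with matrix `Q`. -/
def value {g : ℕ} (Q : Matrix (Fin g) (Fin g) ℝ) (x : Fin g → ℤ) : ℝ :=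
  ∑ i, ∑ j, Q i j * x i * x j

/-- The set of minimal vectors of the form with matrix `Q`. -/
def MinSet {g : ℕ} (Q : Matrix (Fin g) (Fin g) ℝ) : Set (Fin g → ℤ) :=
  {v | v ≠ 0 ∧ ∀ w : Fin g → ℤ, w ≠ 0 → value Q v ≤ value Q w}

/-- `p(v_1), …, p(v_k)` generate a perfect cone: `{±v_1, …, ±v_k}` is the set of minimal vectors
of a positive definite form. -/
def GeneratesPerfectCone {g k : ℕ} (v : Fin k → Fin g → ℤ) : Prop :=
  ∃ Q : Matrix (Fin g) (Fin g) ℝ, Q.PosDef ∧ MinSet Q = {w | ∃ i, w = v i ∨ w = - v i}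

/-- The matrices `p(v_1), …, p(v_k)` can be extended to a `ℤ`-basis of the lattice of integral
symmetric matrices. -/
def ExtendsToBasis {g k : ℕ} (v : Fin k → Fin g → ℤ) : Prop :=
  ∃ (ι : Type) (b : Module.Basis ι ℤ (SymMat g)) (f : Fin k → ι), Function.Injective f ∧
    ∀ i, (b (f i) : Matrix (Fin g) (Fin g) ℤ) = p (v i)

/-! ### The code -/

/-- The nontrivial part of the generator matrix of the code. -/
def P (i j : ℕ) : ℕ :=
  if ([435, 213, 426, 231, 462, 47, 94, 188, 376, 323, 309, 473].getD i 0).testBit j then 1 else 0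

/-- partial parity of the digits of `b` -/
def lo (b j : ℕ) : ℕ := (∑ i : Fin 6, P i j * (b / 2 ^ (i : ℕ) % 2)) % 2

/-- partial parity of the digits of `a` -/
def hi (a j : ℕ) : ℕ := (∑ i : Fin 6, P (6 + i) j * (a / 2 ^ (i : ℕ) % 2)) % 2

/-- number of odd digits -/
def w (a : ℕ) : ℕ := ∑ i : Fin 6, a / 2 ^ (i : ℕ) % 2

theorem check : ∀ a < 64, ∀ b < 64, a + b ≠ 0 →
    5 ≤ w a + w b + ∑ j : Fin 9, (lo b j + hi a j) % 2 := by
  decide +kernel

theorem digits (u : Fin 6 → ℕ) (hu : ∀ i, u i < 2) :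
    (∑ i : Fin 6, u i * 2 ^ (i : ℕ)) < 64 ∧
      ∀ i : Fin 6, (∑ i : Fin 6, u i * 2 ^ (i : ℕ)) / 2 ^ (i : ℕ) % 2 = u i := by
  have h0 := hu 0
  have h1 := hu 1
  have h2 := hu 2
  have h3 := hu 3
  have h4 := hu 4
  have h5 := hu 5
  rw [Fin.sum_univ_six]
  simp only [Fin.val_zero, Fin.val_one, Fin.val_two, pow_zero, mul_one, pow_one]
  have e3 : ((3 : Fin 6) : ℕ) = 3 := rfl
  have e4 : ((4 : Fin 6) : ℕ) = 4 := rfl
  have e5 : ((5 : Fin 6) : ℕ) = 5 := rfl
  rw [e3, e4, e5]
  norm_num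
  refine ⟨by omega, ?_⟩
  intro i
  fin_cases i <;> simp <;> omega

theorem check' (u : Fin 12 → ℕ) (hu : ∀ i, u i < 2) (h0 : u ≠ 0) :
    5 ≤ ∑ i, u i + ∑ j : Fin 9, (∑ i : Fin 12, P i j * u i) % 2 := by
  set ub : Fin 6 → ℕ := fun i => u (Fin.castAdd 6 i) with hub
  set ua : Fin 6 → ℕ := fun i => u (Fin.natAdd 6 i) with hua
  obtain ⟨b1, b2⟩ := digits ub fun i => hu _
  obtain ⟨a1, a2⟩ := digits ua fun i => hu _
  set b := ∑ i : Fin 6, ub i * 2 ^ (i : ℕ) with hb
  set a := ∑ i : Fin 6, ua i * 2 ^ (i : ℕ) with ha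
  have hne : a + b ≠ 0 := by
    intro h
    have h1 : a = 0 := by omega
    have h2 : b = 0 := by omega
    apply h0
    funext i
    refine Fin.addCases (m := 6) (n := 6) (fun i => ?_) (fun i => ?_) i
    · have := b2 i
      rw [h2, Nat.zero_div, Nat.zero_mod] at this
      exact this.symm
    · have := a2 i
      rw [h1, Nat.zero_div, Nat.zero_mod] at this
      exact this.symm
  have h := check a a1 b b1 hne
  have e1 : w a + w b = ∑ i, u i := by
    have : ∑ i : Fin (6 + 6), u i = ∑ i, ub i + ∑ i, ua i := Fin.sum_univ_add _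
    change _ = ∑ i : Fin (6 + 6), u i
    rw [this, w, w, add_comm]
    congr 1
    · exact Finset.sum_congr rfl fun i _ => b2 i
    · exact Finset.sum_congr rfl fun i _ => a2 i
  have e2 : ∀ j : Fin 9, (lo b j + hi a j) % 2 = (∑ i : Fin 12, P i j * u i) % 2 := by
    intro j
    have : ∑ i : Fin (6 + 6), P i j * u i
        = ∑ i : Fin 6, P i j * ub i + ∑ i : Fin 6, P (6 + i) j * ua i := by
      rw [Fin.sum_univ_add]
      rfl
    change _ = (∑ i : Fin (6 + 6), P i j * u i) % 2
    rw [this, lo, hi, ← Nat.add_mod]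
    simp only [a2, b2]
  rw [e1] at h
  simpa only [e2] using h

/-! ### The lattice -/

/-- The matrix whose columns are a basis of `{x ∈ ℤ^21 : x mod 2 ∈ C}`. -/
def G : Matrix (Fin 21) (Fin 21) ℤ := fun a b =>
  if (a : ℕ) < 12 then (if a = b then 1 else 0)
  else if (b : ℕ) < 12 then (P b (a - 12) : ℤ) else if a = b then 2 else 0

/-- The matrix `2 G⁻¹`. -/
def V : Matrix (Fin 21) (Fin 21) ℤ := fun a b =>
  if (a : ℕ) < 12 then (if a = b then 2 else 0)
  else if (b : ℕ) < 12 then -(P b (a - 12) : ℤ) else if a = b then 1 else 0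

/-- The vectors `v_1, …, v_21`: the columns of `V`. -/
def vec (i : Fin 21) : Fin 21 → ℤ := fun a => V a i

theorem G_mul_V : ∀ a c : Fin 21, ∑ b, G a b * V b c = if a = c then 2 else 0 := by
  decide +kernel

theorem V_gram : ∀ a c : Fin 21, (∑ i, V a i * V c i) % 2 = 0 := by
  decide +kernel

/-- `y = G x` -/
def Y (x : Fin 21 → ℤ) (a : Fin 21) : ℤ := ∑ b, G a b * x b

theorem Y_left (x : Fin 21 → ℤ) (i : Fin 12) : Y x (Fin.castAdd 9 i) = x (Fin.castAdd 9 i) := by
  unfold Y G
  have : ((Fin.castAdd 9 i : Fin 21) : ℕ) < 12 := by simp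
  simp [this]

theorem Y_right (x : Fin 21 → ℤ) (j : Fin 9) : Y x (Fin.natAdd 12 j)
    = ∑ i : Fin 12, (P i j : ℤ) * x (Fin.castAdd 9 i) + 2 * x (Fin.natAdd 12 j) := by
  unfold Y
  have : ∑ b : Fin (12 + 9), G (Fin.natAdd 12 j) b * x b
      = ∑ i : Fin 12, G (Fin.natAdd 12 j) (Fin.castAdd 9 i) * x (Fin.castAdd 9 i)
      + ∑ l : Fin 9, G (Fin.natAdd 12 j) (Fin.natAdd 12 l) * x (Fin.natAdd 12 l) :=
    Fin.sum_univ_add _
  change ∑ b : Fin (12 + 9), G (Fin.natAdd 12 j) b * x b = _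
  rw [this]
  congr 1
  · apply Finset.sum_congr rfl
    intro i _
    congr 1
    simp [G]
  · rw [Finset.sum_eq_single j]
    · simp [G]
    · intro l _ hl
      have h' : ¬ (Fin.natAdd 12 j : Fin 21) = Fin.natAdd 12 l := by
        intro h
        apply hl
        apply Fin.ext
        have := congrArg Fin.val h
        simp only [Fin.val_natAdd] at this
        omega
      have h1 : ¬ ((Fin.natAdd 12 j : Fin 21) : ℕ) < 12 := by simp
      have h2 : ¬ ((Fin.natAdd 12 l : Fin 21) : ℕ) < 12 := by simp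
      simp only [G, h1, h2, if_false, h', zero_mul]
    · simp

theorem Y_V (i : Fin 21) (a : Fin 21) : Y (vec i) a = if a = i then 2 else 0 := G_mul_V a i

theorem Y_inj {x : Fin 21 → ℤ} (h : ∀ a, Y x a = 0) : x = 0 := by
  have h1 : ∀ i : Fin 12, x (Fin.castAdd 9 i) = 0 := fun i => (Y_left x i).symm.trans (h _)
  funext a
  refine Fin.addCases (m := 12) (n := 9) (fun i => h1 i) (fun j => ?_) a
  have h2 := Y_right x j
  rw [h] at h2
  simp only [h1, mul_zero, Finset.sum_const_zero, zero_add] at h2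
  have : x (Fin.natAdd 12 j) = 0 := by linarith
  exact this

theorem mod_le_sq (y : ℤ) : y % 2 ≤ y ^ 2 := by
  rcases Int.emod_two_eq_zero_or_one y with h | h
  · rw [h]; positivity
  · rw [h]
    have : y ≠ 0 := by rintro rfl; simp at h
    have := Int.one_le_abs this
    nlinarith [sq_abs y]

/-- the key fact: small norm implies that all coordinates of `G x` are even -/
theorem even_of_small {x : Fin 21 → ℤ} (h : ∑ a, Y x a ^ 2 ≤ 4) : ∀ a, Y x a % 2 = 0 := by
  set u : Fin 12 → ℕ := fun i => (x (Fin.castAdd 9 i) % 2).toNat with hu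
  have hu' : ∀ i, (u i : ℤ) = x (Fin.castAdd 9 i) % 2 := fun i =>
    Int.toNat_of_nonneg (Int.emod_nonneg _ (by norm_num))
  have hu2 : ∀ i, u i < 2 := by
    intro i
    have := Int.emod_lt_of_pos (x (Fin.castAdd 9 i)) (by norm_num : (0 : ℤ) < 2)
    have h2 := hu' i
    omega
  have hpar : ∀ j : Fin 9, (((∑ i : Fin 12, P i j * u i) % 2 : ℕ) : ℤ)
      = Y x (Fin.natAdd 12 j) % 2 := by
    intro j
    rw [Y_right]
    push_cast
    simp only [hu']
    rw [Int.add_mul_emod_self_left, Finset.sum_int_mod]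
    conv_rhs => rw [Finset.sum_int_mod]
    congr 1
    apply Finset.sum_congr rfl
    intro i _
    rw [Int.mul_emod, Int.emod_emod_of_dvd _ (dvd_refl 2), ← Int.mul_emod]
  by_cases h0 : u = 0
  · intro a
    refine Fin.addCases (m := 12) (n := 9) (fun i => ?_) (fun j => ?_) a
    · have h1 := hu' i
      rw [h0] at h1
      change Y x (Fin.castAdd 9 i) % 2 = 0
      rw [Y_left, ← h1]
      simp
    · change Y x (Fin.natAdd 12 j) % 2 = 0
      rw [← hpar, h0]
      simp
  · exfalso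
    have h5 := check' u hu2 h0
    have h6 : ∑ a, Y x a % 2 ≤ 4 := (Finset.sum_le_sum fun a _ => mod_le_sq (Y x a)).trans h
    have h7 : ∑ a : Fin (12 + 9), Y x a % 2
        = ∑ i : Fin 12, Y x (Fin.castAdd 9 i) % 2 + ∑ j : Fin 9, Y x (Fin.natAdd 12 j) % 2 :=
      Fin.sum_univ_add _
    have h8 : ((∑ i, u i + ∑ j : Fin 9, (∑ i : Fin 12, P i j * u i) % 2 : ℕ) : ℤ)
        = ∑ a : Fin (12 + 9), Y x a % 2 := by
      rw [h7, Nat.cast_add, Nat.cast_sum, Nat.cast_sum]
      congr 1
      · exact Finset.sum_congr rfl fun i _ => by rw [hu', Y_left]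
      · exact Finset.sum_congr rfl fun j _ => hpar j
    have h9 : (5 : ℤ) ≤ ∑ a : Fin (12 + 9), Y x a % 2 := by
      rw [← h8]
      exact_mod_cast h5
    have h10 : ∑ a : Fin (12 + 9), Y x a % 2 = ∑ a : Fin 21, Y x a % 2 := rfl
    omega

theorem norm_ge {x : Fin 21 → ℤ} (hx : x ≠ 0) : 4 ≤ ∑ a, Y x a ^ 2 := by
  by_contra hlt
  push Not at hlt
  have hev := even_of_small hlt.le
  have : ∃ a, Y x a ≠ 0 := by
    by_contra h
    push Not at h
    exact hx (Y_inj h)
  obtain ⟨a, ha⟩ := this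
  have h1 : 4 ≤ Y x a ^ 2 := by
    obtain ⟨z, hz⟩ := Int.dvd_of_emod_eq_zero (hev a)
    have hz0 : z ≠ 0 := by rintro rfl; simp at hz; exact ha hz
    have := Int.one_le_abs hz0
    rw [hz]
    nlinarith [sq_abs z]
  have h2 : Y x a ^ 2 ≤ ∑ a, Y x a ^ 2 :=
    Finset.single_le_sum (f := fun a => Y x a ^ 2) (fun a _ => sq_nonneg _) (Finset.mem_univ a)
  omega

theorem norm_eq {x : Fin 21 → ℤ} (h : ∑ a, Y x a ^ 2 = 4) : ∃ i, x = vec i ∨ x = - vec i := by
  have hev := even_of_small h.le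
  have hx : ∃ a, Y x a ≠ 0 := by
    by_contra h'
    push Not at h'
    simp [h'] at h
  obtain ⟨a, ha⟩ := hx
  obtain ⟨z, hz⟩ := Int.dvd_of_emod_eq_zero (hev a)
  have hz0 : z ≠ 0 := by rintro rfl; simp at hz; exact ha hz
  have hz1 := Int.one_le_abs hz0
  have h1 : 4 ≤ Y x a ^ 2 := by
    rw [hz]
    nlinarith [sq_abs z]
  have hsplit : Y x a ^ 2 + ∑ b ∈ Finset.univ.erase a, Y x b ^ 2 = ∑ b, Y x b ^ 2 :=
    Finset.add_sum_erase Finset.univ (fun a => Y x a ^ 2) (Finset.mem_univ a)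
  have hrest : ∑ b ∈ Finset.univ.erase a, Y x b ^ 2 = 0 := by
    have : 0 ≤ ∑ b ∈ Finset.univ.erase a, Y x b ^ 2 := Finset.sum_nonneg fun b _ => sq_nonneg _
    omega
  have hzero : ∀ b, b ≠ a → Y x b = 0 := by
    intro b hb
    have := (Finset.sum_eq_zero_iff_of_nonneg (fun b _ => sq_nonneg (Y x b))).1 hrest b
      (Finset.mem_erase.2 ⟨hb, Finset.mem_univ b⟩)
    exact pow_eq_zero_iff (two_ne_zero) |>.1 this
  have ha4 : Y x a ^ 2 = 4 := by
    omega
  have ha2 : Y x a = 2 ∨ Y x a = -2 := by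
    have : (Y x a - 2) * (Y x a + 2) = 0 := by linarith [ha4, sq (Y x a)]
    rcases mul_eq_zero.1 this with h | h
    · left; linarith
    · right; linarith
  have hlin : ∀ (x' : Fin 21 → ℤ), (∀ b, Y x b = Y x' b) → x = x' := by
    intro x' hx'
    have : x - x' = 0 := by
      apply Y_inj
      intro b
      have e : Y (x - x') b = Y x b - Y x' b := by
        simp [Y, mul_sub, Finset.sum_sub_distrib]
      rw [e, hx' b, sub_self]
    exact sub_eq_zero.1 this
  refine ⟨a, ?_⟩
  rcases ha2 with h2 | h2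
  · left
    apply hlin
    intro b
    rw [Y_V]
    by_cases hb : b = a
    · rw [if_pos hb, hb, h2]
    · rw [if_neg hb, hzero b hb]
  · right
    apply hlin
    intro b
    have e : Y (-vec a) b = - Y (vec a) b := by
      simp [Y]
    rw [e, Y_V]
    by_cases hb : b = a
    · rw [if_pos hb, hb, h2]
    · rw [if_neg hb, hzero b hb, neg_zero]

theorem norm_vec (i : Fin 21) : ∑ a, Y (vec i) a ^ 2 = 4 := by
  simp only [Y_V]
  rw [Finset.sum_eq_single i]
  · norm_num
  · intro b _ hb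
    simp [hb]
  · simp

/-- The real matrix of the form `x ↦ |G x|²`. -/
noncomputable def Q : Matrix (Fin 21) (Fin 21) ℝ :=
  (G.map (Int.cast : ℤ → ℝ)).transpose * G.map (Int.cast : ℤ → ℝ)

theorem value_Q (x : Fin 21 → ℤ) : value Q x = ((∑ a, Y x a ^ 2 : ℤ) : ℝ) := by
  unfold value Q Y
  push_cast
  simp only [Matrix.mul_apply, Matrix.transpose_apply, Matrix.map_apply]
  simp only [pow_two, Finset.sum_mul_sum]
  simp only [Finset.sum_mul]
  rw [Finset.sum_comm (s := Finset.univ) (t := Finset.univ)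
    (f := fun (x_1 i : Fin 21) => ∑ j, (G x_1 i : ℝ) * x i * (G x_1 j * x j))]
  apply Finset.sum_congr rfl
  intro i _
  rw [Finset.sum_comm (s := Finset.univ) (t := Finset.univ)
    (f := fun (x_1 j : Fin 21) => (G x_1 i : ℝ) * x i * (G x_1 j * x j))]
  apply Finset.sum_congr rfl
  intro j _
  apply Finset.sum_congr rfl
  intro a _
  ring

theorem posDef_Q : Q.PosDef := by
  have h : Function.Injective (G.map (Int.cast : ℤ → ℝ)).mulVec := by
    have hVG : (V.map (Int.cast : ℤ → ℝ)) * G.map (Int.cast : ℤ → ℝ) = (2 : ℝ) • 1 := by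
      have h1 : G * V = (2 : ℤ) • 1 := by
        ext a c
        rw [Matrix.mul_apply, G_mul_V]
        simp [Matrix.one_apply]
      have h2 : (G.map (Int.cast : ℤ → ℝ)) * V.map (Int.cast : ℤ → ℝ) = (2 : ℝ) • 1 := by
        have h0 : (G * V).map (Int.castRingHom ℝ) = G.map (Int.castRingHom ℝ) *
            V.map (Int.castRingHom ℝ) := Matrix.map_mul
        rw [h1] at h0
        have h00 : (G.map (Int.cast : ℤ → ℝ)) * V.map (Int.cast : ℤ → ℝ)
            = ((2 : ℤ) • (1 : Matrix (Fin 21) (Fin 21) ℤ)).map (Int.castRingHom ℝ) := h0.symm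
        rw [h00]
        ext a c
        rw [Matrix.map_apply, Matrix.smul_apply, Matrix.smul_apply, Matrix.one_apply,
          Matrix.one_apply]
        split_ifs <;> simp
      have h3 : (G.map (Int.cast : ℤ → ℝ)) * ((1 / 2 : ℝ) • V.map (Int.cast : ℤ → ℝ)) = 1 := by
        rw [Matrix.mul_smul, h2, smul_smul]
        norm_num
      have h4 := mul_eq_one_comm.1 h3
      rw [Matrix.smul_mul] at h4
      rw [← h4, smul_smul]
      norm_num
    intro x y hxy
    have h1 := congrArg (V.map (Int.cast : ℤ → ℝ)).mulVec hxy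
    rw [Matrix.mulVec_mulVec, Matrix.mulVec_mulVec, hVG, Matrix.smul_mulVec, Matrix.smul_mulVec,
      Matrix.one_mulVec, Matrix.one_mulVec] at h1
    exact smul_right_injective _ (two_ne_zero) h1
  have := Matrix.PosDef.conjTranspose_mul_self _ h
  rwa [Matrix.conjTranspose_eq_transpose_of_trivial] at this

theorem minSet_Q : MinSet Q = {w | ∃ i, w = vec i ∨ w = - vec i} := by
  have hne : ∀ i, vec i ≠ 0 := by
    intro i h
    have := norm_vec i
    rw [h] at this
    simp [Y] at this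
  have hneg : ∀ i, ∑ a, Y (-vec i) a ^ 2 = 4 := by
    intro i
    rw [← norm_vec i]
    apply Finset.sum_congr rfl
    intro a _
    have e : Y (-vec i) a = - Y (vec i) a := by simp [Y]
    rw [e, neg_sq]
  have hval : ∀ x : Fin 21 → ℤ, x ≠ 0 → (4 : ℝ) ≤ value Q x := by
    intro x hx
    rw [value_Q]
    exact_mod_cast norm_ge hx
  ext x
  constructor
  · rintro ⟨hx, hmin⟩
    have h1 := hmin (vec 0) (hne 0)
    rw [value_Q, value_Q, norm_vec] at h1
    have h2 : ∑ a, Y x a ^ 2 ≤ 4 := by exact_mod_cast h1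
    exact norm_eq (le_antisymm h2 (norm_ge hx))
  · rintro ⟨i, rfl | rfl⟩
    · refine ⟨hne i, fun w hw => ?_⟩
      rw [value_Q, norm_vec]
      have := hval w hw
      exact_mod_cast this
    · refine ⟨neg_ne_zero.2 (hne i), fun w hw => ?_⟩
      rw [value_Q, hneg]
      have := hval w hw
      exact_mod_cast this

theorem linInd : LinearIndependent ℤ vec := by
  rw [Fintype.linearIndependent_iff]
  intro c hc i
  have h1 : Y (∑ j, c j • vec j) i = 2 * c i := by
    have : Y (∑ j, c j • vec j) i = ∑ j, c j * Y (vec j) i := by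
      unfold Y
      simp only [Finset.sum_apply, Pi.smul_apply, smul_eq_mul, Finset.mul_sum]
      rw [Finset.sum_comm]
      apply Finset.sum_congr rfl
      intro b _
      apply Finset.sum_congr rfl
      intro j _
      ring
    rw [this]
    simp only [Y_V]
    rw [Finset.sum_eq_single i]
    · simp; ring
    · intro b _ hb
      simp [Ne.symm hb]
    · simp
  rw [hc] at h1
  simp [Y] at h1
  exact h1

theorem not_basis : ¬ ExtendsToBasis vec := by
  rintro ⟨ι, b, f, hf, hb⟩
  -- half of the sum of the p(v_i)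
  set M : Matrix (Fin 21) (Fin 21) ℤ := fun a c => (∑ i, V a i * V c i) / 2 with hM
  have hMs : M ∈ SymMat 21 := by
    change M.transpose = M
    ext a c
    change (∑ i, V c i * V a i) / 2 = (∑ i, V a i * V c i) / 2
    congr 1
    exact Finset.sum_congr rfl fun i _ => mul_comm (V c i) (V a i)
  have hsum : ∑ i, b (f i) = (2 : ℤ) • (⟨M, hMs⟩ : SymMat 21) := by
    apply Subtype.ext
    rw [Submodule.coe_sum, Submodule.coe_smul]
    simp only [hb]
    ext a c
    simp only [Matrix.sum_apply, p, Matrix.vecMulVec_apply, vec, Matrix.smul_apply, smul_eq_mul]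
    have := V_gram a c
    have h2 := Int.emod_add_mul_ediv (∑ i, V a i * V c i) 2
    simp only [hM]
    omega
  have h1 := congrArg (fun m => b.repr m (f 0)) hsum
  simp only [map_sum, map_smul, Module.Basis.repr_self, Finsupp.coe_finsetSum,
    Finset.sum_apply, Finsupp.smul_apply, smul_eq_mul] at h1
  rw [Finset.sum_eq_single 0] at h1
  · rw [Finsupp.single_eq_same] at h1
    omega
  · intro i _ hi
    exact Finsupp.single_eq_of_ne (fun h => hi (hf h).symm)
  · simp

/-- **Negative answer to Q1 of MP_aa1cdf_co** (with `g = 21`). -/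
theorem result : ∃ v : Fin 21 → Fin 21 → ℤ, LinearIndependent ℤ v ∧ GeneratesPerfectCone v ∧
    ¬ ExtendsToBasis v :=
  ⟨vec, linInd, ⟨Q, posDef_Q, minSet_Q⟩, not_basis⟩

end Pool.Agent.Results.MP_aa1cdf_co.NotBasic
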